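import Pool.Agent.Lib.FW.SpecR3

/-!
# FW, part R3: the values at elements prime to `m`
-/

open scoped Pointwise nonZeroDivisors

noncomputable section

namespace Pool.Agent.FW

open Pool.Agent.MuZ NumberField IsDedekindDomain

private theorem R3A_pow {σ : Gal(Om/ℚ)} {m N : ℕ} (h : ∀ z : Om, z ^ m = 1 → σ z = z ^ N) :
    ∀ z : Om, z ^ m = 1 → (σ ^ 2) z = z ^ N ^ 2 := by
  intro z hz
  have h1 : (z ^ N) ^ m = 1 := by rw [← pow_mul, mul_comm, pow_mul, hz, one_pow]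
  rw [pow_two, AlgEquiv.mul_apply, h z hz, h _ h1, ← pow_mul, pow_two]

private theorem R3A_mod {m a b : ℕ} (h : a ≡ b [MOD m]) (z : Om) (hz : z ^ m = 1) : z ^ a = z ^ b := by
  rw [← Nat.mod_add_div a m, ← Nat.mod_add_div b m, pow_add, pow_add, pow_mul, pow_mul, hz, one_pow,
    one_pow, h]

theorem tR3A (h1 : S_FrI) (h2 : S_R3V) (h3 : S_R3N) (h4 : S_R3M) : S_R3A := by
  intro p hp hp2 K M hK hM h
  let _ : Algebra K M := incA h
  rintro ⟨hgal, htriv⟩ g hg hgM m hm hgm a ha r hr hrm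
  obtain ⟨y, z, hy0, hy⟩ := h3 K M htriv m hm r hrm
  -- `y` divides its norm
  have hnorm : algebraMap (𝓞 K) (𝓞 M) (r + m * z) = ∏ s : Gal(M/K), RingOfIntegers.mapRingHom (s : M →+* M) y := by
    apply RingOfIntegers.ext
    have e1 : ((algebraMap (𝓞 K) (𝓞 M) (r + m * z) : 𝓞 M) : M) = algebraMap K M ((r + m * z : 𝓞 K) : K) := rfl
    rw [e1, ← hy, Algebra.norm_eq_prod_automorphisms]
    exact (map_prod (algebraMap (𝓞 M) M)
      (fun s : Gal(M/K) => RingOfIntegers.mapRingHom (s : M →+* M) y) Finset.univ).symm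
  have hdvd : y ∣ algebraMap (𝓞 K) (𝓞 M) (r + m * z) := by
    rw [hnorm]
    have h5 : RingOfIntegers.mapRingHom (((1 : Gal(M/K)) : M →+* M)) y = y := by
      apply RingOfIntegers.ext
      rfl
    nth_rw 1 [← h5]
    exact Finset.dvd_prod_of_mem (fun s : Gal(M/K) => RingOfIntegers.mapRingHom (s : M →+* M) y)
      (Finset.mem_univ 1)
  -- `y` is prime to `m`
  have hym : ∀ w : HeightOneSpectrum (𝓞 M), (m : 𝓞 M) ∈ w.asIdeal → ¬ Ideal.span {y} ≤ w.asIdeal := by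
    intro w hw hyw
    rw [Ideal.span_singleton_le_iff_mem] at hyw
    have hmem : (m : 𝓞 K) ∈ w.asIdeal.comap (algebraMap (𝓞 K) (𝓞 M)) := by
      rw [Ideal.mem_comap, map_natCast]
      exact hw
    have hb : w.asIdeal.comap (algebraMap (𝓞 K) (𝓞 M)) ≠ ⊥ := by
      intro hb
      rw [hb, Ideal.mem_bot] at hmem
      exact hm.ne' (by exact_mod_cast hmem)
    have hprime : (w.asIdeal.comap (algebraMap (𝓞 K) (𝓞 M))).IsPrime := by
      have := w.isPrime
      exact Ideal.comap_isPrime _ _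
    let v : HeightOneSpectrum (𝓞 K) := ⟨_, hprime, hb⟩
    refine hrm v hmem ?_
    have h6 : r + m * z ∈ v.asIdeal := by
      show r + m * z ∈ w.asIdeal.comap (algebraMap (𝓞 K) (𝓞 M))
      rw [Ideal.mem_comap]
      exact Ideal.mem_of_dvd _ hdvd hyw
    have h7 : (m : 𝓞 K) * z ∈ v.asIdeal := Ideal.mul_mem_right _ _ hmem
    have h8 := v.asIdeal.sub_mem h6 h7
    rwa [add_sub_cancel_right] at h8
  -- the two Artin elements
  obtain ⟨σ, hσK, hσm, hσg⟩ := h1 p K g hg m hm a ha (Ideal.span {r})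
    (by rwa [Ne, Ideal.span_singleton_eq_bot]) (by
      intro v hv hle
      rw [Ideal.span_singleton_le_iff_mem] at hle
      exact hrm v hv hle)
  obtain ⟨τ, hτM, hτm, -⟩ := h1 p M 0 (Submodule.zero_mem _) m hm (fun _ => 0)
    (fun _ _ _ _ _ _ => rfl) (Ideal.span {y}) (by rwa [Ne, Ideal.span_singleton_eq_bot]) hym
  have hsum : ∑ᶠ v : HeightOneSpectrum (𝓞 K), (vl K v (r : K) : ZMod p) * a v = g σ := by
    rw [hσg]
    refine finsum_congr fun v => ?_
    rw [(h2 K).2.2.2 v r]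
  rw [hsum]
  have hτK : τ ∈ K.fixingSubgroup := IntermediateField.fixingSubgroup_antitone h hτM
  have hmod := h4 K M m r z y hy
  have hgmul := hg.2.1
  have hfix : g ((τ ^ 2)⁻¹ * σ ^ 2) = 0 := by
    refine hgm _ (mul_mem (inv_mem (pow_mem hτK 2)) (pow_mem hσK 2)) fun ζ hζ => ?_
    have k1 := R3A_pow hσm ζ hζ
    have k2 := R3A_pow hτm ζ hζ
    have k3 : (σ ^ 2) ζ = (τ ^ 2) ζ := by
      rw [k1, k2]
      exact (R3A_mod hmod ζ hζ).symm
    rw [AlgEquiv.mul_apply, k3, ← AlgEquiv.mul_apply, inv_mul_cancel, AlgEquiv.one_apply]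
  have hgσ2 : g (σ ^ 2) = g σ + g σ := by rw [pow_two, hgmul σ hσK σ hσK]
  have hgτ : g (τ ^ 2) = 0 := hgM _ (pow_mem hτM 2)
  have hprod := hgmul (τ ^ 2) (pow_mem hτK 2) _ (mul_mem (inv_mem (pow_mem hτK 2)) (pow_mem hσK 2))
  rw [mul_inv_cancel_left, hgσ2, hgτ, hfix, add_zero] at hprod
  have h2ne : (2 : ZMod p) ≠ 0 := by
    intro h0
    have : ((2 : ℕ) : ZMod p) = 0 := by exact_mod_cast h0
    rw [ZMod.natCast_eq_zero_iff] at this
    exact hp2 ((Nat.prime_dvd_prime_iff_eq hp.out Nat.prime_two).1 this)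
  rw [← two_mul] at hprod
  exact (mul_eq_zero.1 hprod).resolve_left h2ne

end Pool.Agent.FW
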