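import Pool.Agent.Lib.FW.SpecR3

open scoped Pointwise nonZeroDivisors

noncomputable section

namespace Pool.Agent.FW

open Pool.Agent.MuZ NumberField IsDedekindDomain

private theorem r3d_zero (K : Type) [Field K] [NumberField K] (v : HeightOneSpectrum (𝓞 K))
    (J : Ideal (𝓞 K)) (hJ : J ≠ 0) (h : ¬ v.asIdeal ∣ J) :
    FractionalIdeal.count K v (J : FractionalIdeal (𝓞 K)⁰ K) = 0 := by
  classical
  rw [FractionalIdeal.count_coe K v hJ, Nat.cast_eq_zero]
  by_contra hc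
  exact h ((Associates.count_ne_zero_iff_dvd hJ v.irreducible).1 hc)

/-- The ideal `(x) = v ^ n C`, `C` prime to `v`, `n` the valuation. -/
private theorem r3d_fac (hV : S_R3V) (K : Type) [Field K] [NumberField K]
    (v : HeightOneSpectrum (𝓞 K)) (x : 𝓞 K) (hx : x ≠ 0) :
    ∃ (n : ℕ) (C : Ideal (𝓞 K)), Ideal.span {x} = v.asIdeal ^ n * C ∧ ¬ v.asIdeal ∣ C ∧
      vl K v (x : K) = n := by
  have hJ : (Ideal.span {x} : Ideal (𝓞 K)) ≠ 0 := by
    rw [Ne, Ideal.zero_eq_bot, Ideal.span_singleton_eq_bot]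
    exact hx
  have hfm : FiniteMultiplicity v.asIdeal (Ideal.span {x} : Ideal (𝓞 K)) :=
    FiniteMultiplicity.of_prime_left v.prime hJ
  obtain ⟨C, hC, hvC⟩ := hfm.exists_eq_pow_mul_and_not_dvd
  generalize multiplicity v.asIdeal (Ideal.span {x} : Ideal (𝓞 K)) = n at hC
  have hC0 : C ≠ 0 := by
    rintro rfl
    rw [mul_zero] at hC
    exact hJ hC
  refine ⟨n, C, hC, hvC, ?_⟩
  rw [(hV K).2.2.2 v x, hC, FractionalIdeal.coeIdeal_mul, FractionalIdeal.coeIdeal_pow,
    FractionalIdeal.count_mul K v (pow_ne_zero _ (FractionalIdeal.coeIdeal_ne_zero.2 v.ne_bot))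
      (FractionalIdeal.coeIdeal_ne_zero.2 hC0), FractionalIdeal.count_pow_self,
    r3d_zero K v C hC0 hvC, add_zero]

theorem tR3D (h1 : S_R3V) : S_R3D := by
  classical
  intro K _ _ S x hx hS
  obtain ⟨hV1, hV2, -, -⟩ := h1 K
  let D : Ideal (𝓞 K) :=
    { carrier := {s | ∃ r : 𝓞 K, x * (s : K) = (r : K)}
      add_mem' := by
        rintro a b ⟨r, hr⟩ ⟨r', hr'⟩
        refine ⟨r + r', ?_⟩
        push_cast
        rw [mul_add, hr, hr']
      zero_mem' := ⟨0, by push_cast; rw [mul_zero]⟩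
      smul_mem' := by
        rintro c a ⟨r, hr⟩
        refine ⟨c * r, ?_⟩
        rw [smul_eq_mul]
        push_cast
        linear_combination (c : K) * hr }
  obtain ⟨α, β, hβ, hαβ⟩ := IsFractionRing.div_surjective (A := 𝓞 K) x
  have hβ0 : β ≠ 0 := nonZeroDivisors.ne_zero hβ
  have hβK : (β : K) ≠ 0 := by
    intro h
    exact hβ0 ((FaithfulSMul.algebraMap_eq_zero_iff (𝓞 K) K).1 h)
  have hxβ : x * (β : K) = (α : K) := by
    rw [← hαβ]
    exact div_mul_cancel₀ _ hβK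
  have hα0 : α ≠ 0 := by
    rintro rfl
    have h : x * (β : K) = 0 := by rw [hxβ]; simp
    rcases mul_eq_zero.1 h with h | h
    · exact hx h
    · exact hβK h
  have hβD : β ∈ D := ⟨α, hxβ⟩
  have claim : ∀ v ∈ S, ¬ D ≤ v.asIdeal := by
    intro v hv hle
    obtain ⟨n, C, hC, hvC, hn⟩ := r3d_fac h1 K v β hβ0
    obtain ⟨n', C', hC', hvC', hn'⟩ := r3d_fac h1 K v α hα0
    have hnn : n' = n := by
      have h := hV1 v x (β : K) hx hβK
      rw [hxβ, hS v hv, zero_add, hn, hn'] at h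
      exact_mod_cast h
    rw [hnn] at hC'
    have hCv : ¬ C ≤ v.asIdeal := fun h => hvC (Ideal.dvd_iff_le.2 h)
    obtain ⟨c, hcC, hcv⟩ := SetLike.not_le_iff_exists.1 hCv
    have hαv : α ∈ v.asIdeal ^ n := by
      have h : v.asIdeal ^ n ∣ Ideal.span {α} := ⟨C', hC'⟩
      exact Ideal.dvd_span_singleton.1 h
    have h2 : α * c ∈ Ideal.span {β} := by
      rw [hC]
      exact Ideal.mul_mem_mul hαv hcC
    obtain ⟨r, hr⟩ := Ideal.mem_span_singleton'.1 h2
    refine hcv (hle ⟨r, ?_⟩)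
    have h3 : (r : K) * (β : K) = (α : K) * (c : K) := by
      have := congrArg (fun y : 𝓞 K => (y : K)) hr
      push_cast at this
      exact this
    apply mul_right_cancel₀ hβK
    rw [h3, ← hxβ]
    ring
  have hav : ¬ ((D : Set (𝓞 K)) ⊆
      ⋃ i ∈ ((insert ⊥ (S.image fun v => v.asIdeal) : Finset (Ideal (𝓞 K))) : Set (Ideal (𝓞 K))),
        (id i : Ideal (𝓞 K))) := by
    rw [Ideal.subset_union_prime (⊥ : Ideal (𝓞 K)) (⊥ : Ideal (𝓞 K))]
    · rintro ⟨i, hi, hle⟩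
      rw [Finset.mem_insert, Finset.mem_image] at hi
      rcases hi with rfl | ⟨v, hv, rfl⟩
      · exact hβ0 (hle hβD)
      · exact claim v hv hle
    · intro i hi hi0 _
      rw [Finset.mem_insert, Finset.mem_image] at hi
      rcases hi with rfl | ⟨v, hv, rfl⟩
      · exact absurd rfl hi0
      · exact v.isPrime
  rw [Set.not_subset] at hav
  obtain ⟨s, hsD, hs⟩ := hav
  obtain ⟨r, hr⟩ := hsD
  rw [Set.mem_iUnion₂] at hs
  push Not at hs
  have hs0 : s ≠ 0 := by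
    rintro rfl
    exact hs ⊥ (by simp) (zero_mem _)
  have hsv : ∀ v ∈ S, s ∉ v.asIdeal := by
    intro v hv
    exact hs v.asIdeal (by
      rw [Finset.mem_coe, Finset.mem_insert, Finset.mem_image]
      exact Or.inr ⟨v, hv, rfl⟩)
  have hsK : (s : K) ≠ 0 := by
    intro h
    exact hs0 ((FaithfulSMul.algebraMap_eq_zero_iff (𝓞 K) K).1 h)
  have hr0 : r ≠ 0 := by
    rintro rfl
    have h : x * (s : K) = 0 := by rw [hr]; simp
    rcases mul_eq_zero.1 h with h | h
    · exact hx h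
    · exact hsK h
  refine ⟨r, s, hr0, hs0, hr, fun v hv => ⟨?_, hsv v hv⟩⟩
  rw [← (hV2 v r hr0).2, ← hr, hV1 v x (s : K) hx hsK, hS v hv, zero_add]
  exact (hV2 v s hs0).2.2 (hsv v hv)

end Pool.Agent.FW
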