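import Pool.Agent.Lib.FW.SpecR3

/-!
# FW, part R3: assembly
-/

open scoped Pointwise nonZeroDivisors

noncomputable section

namespace Pool.Agent.FW

open Pool.Agent.MuZ NumberField IsDedekindDomain

theorem tR3F : S_R3F := by
  classical
  intro hIne hFrG hLie hFrE hFrU hA hX p hp hp2 K hK g hg m hm hgm
  by_cases hg0 : g = 0
  · refine ⟨fun _ => 0, fun x _ => by simp, fun v P σ _ _ _ => ?_⟩
    rw [hg0]
    rfl
  obtain ⟨M, h, hM, hker, -, hgal, -, htriv, -⟩ := hFrG hIne p K g hg hg0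
  have hP : ∀ v : HeightOneSpectrum (𝓞 K), ∃ (P : Ideal ZZ) (σ : Gal(Om/ℚ)), Ab K P v ∧ IsFr K P σ := by
    intro v
    obtain ⟨P, hP⟩ := hLie.1 K v
    obtain ⟨σ, hσ⟩ := hFrE K P hP.1 hP.2.1
    exact ⟨P, σ, hP, hσ⟩
  choose P σ hPv hσv using hP
  let b : HeightOneSpectrum (𝓞 K) → ZMod p := fun v =>
    if (m : 𝓞 K) ∈ v.asIdeal then 0 else g (σ v)
  have hb : IsArt p K g m b := by
    intro v P' σ' hmv hP' hσ'
    show (if (m : 𝓞 K) ∈ v.asIdeal then 0 else g (σ v)) = g σ'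
    rw [if_neg hmv]
    exact (hFrU p K g hg).1 v (P v) P' (σ v) σ' (hPv v) hP' (hσv v) hσ'
  have hfin : {v : HeightOneSpectrum (𝓞 K) | (m : 𝓞 K) ∈ v.asIdeal}.Finite := by
    have h0 : (Ideal.span {(m : 𝓞 K)} : Ideal (𝓞 K)) ≠ 0 := by
      rw [Ne, Ideal.zero_eq_bot, Ideal.span_singleton_eq_bot]
      exact_mod_cast hm.ne'
    refine (Ideal.finite_factors h0).subset ?_
    intro v hv
    rw [Set.mem_ofPred_eq, Ideal.dvd_span_singleton]
    exact hv
  obtain ⟨a, ha, hab⟩ := hX p K hfin.toFinset b (by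
    intro v hv
    rw [Set.Finite.mem_toFinset, Set.mem_ofPred_eq] at hv
    show (if (m : 𝓞 K) ∈ v.asIdeal then 0 else g (σ v)) = 0
    rw [if_pos hv]) (by
    intro r hr hrS
    refine hA p hp2 K M h ⟨hgal, htriv⟩ g hg (fun σ hσ => ((hker σ).1 hσ).2) m hm hgm b hb r hr ?_
    intro v hv
    exact hrS v (by rw [Set.Finite.mem_toFinset]; exact hv))
  refine ⟨a, ha, ?_⟩
  intro v P' σ' hmv hP' hσ'
  rw [hab v (by rw [Set.Finite.mem_toFinset]; exact hmv)]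
  exact hb v P' σ' hmv hP' hσ'

end Pool.Agent.FW
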