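import Pool.Agent.Lib.FW.SpecR3

/-!
# Part R3, module R3M: absolute norms
-/

open scoped Pointwise nonZeroDivisors

noncomputable section

namespace Pool.Agent.FW

open Pool.Agent.MuZ NumberField IsDedekindDomain

private theorem R3M_norm (K : Type) [Field K] [NumberField K] (m : ℕ) (x z : 𝓞 K) :
    ((Algebra.norm ℤ (x + m * z) : ℤ) : ZMod m) = ((Algebra.norm ℤ x : ℤ) : ZMod m) := by
  classical
  rw [Algebra.norm_eq_matrix_det (NumberField.RingOfIntegers.basis K),
    Algebra.norm_eq_matrix_det (NumberField.RingOfIntegers.basis K)]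
  change (Int.castRingHom (ZMod m)) _ = (Int.castRingHom (ZMod m)) _
  rw [RingHom.map_det, RingHom.map_det]
  congr 1
  rw [map_add, map_add, map_mul, map_mul, map_natCast, map_natCast]
  have h : ((m : ℕ) : Matrix (Module.Free.ChooseBasisIndex ℤ (𝓞 K))
      (Module.Free.ChooseBasisIndex ℤ (𝓞 K)) (ZMod m)) = 0 := by
    rw [← Matrix.diagonal_natCast, ZMod.natCast_self, Matrix.diagonal_zero]
  rw [h, zero_mul, add_zero]

private theorem R3M_tower (K L : Type) [Field K] [NumberField K] [Field L] [NumberField L]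
    [Algebra K L] (x : 𝓞 K) (y : 𝓞 L) (h : Algebra.norm K (y : L) = (x : K)) :
    Algebra.norm ℤ y = Algebra.norm ℤ x := by
  have h1 : ((Algebra.norm ℤ y : ℤ) : ℚ) = ((Algebra.norm ℤ x : ℤ) : ℚ) := by
    rw [Algebra.coe_norm_int, Algebra.coe_norm_int, ← h, Algebra.norm_norm]
  exact_mod_cast h1

theorem tR3M : S_R3M := by
  intro K L _ _ _ _ _ m x z y h
  rw [Ideal.absNorm_span_singleton, Ideal.absNorm_span_singleton,
    R3M_tower K L (x + m * z) y h, ← ZMod.natCast_eq_natCast_iff]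
  have e : ∀ a : ℤ, (((a.natAbs ^ 2 : ℕ) : ℤ) : ZMod m) = (a : ZMod m) ^ 2 := by
    intro a
    rw [Nat.cast_pow, Int.natAbs_sq]
    push_cast
    rfl
  have e1 := e (Algebra.norm ℤ (x + m * z))
  have e2 := e (Algebra.norm ℤ x)
  rw [Int.cast_natCast] at e1 e2
  rw [e1, e2, R3M_norm]

end Pool.Agent.FW
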