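import Pool.Agent.Lib.FW.SpecR3

open scoped Pointwise nonZeroDivisors

noncomputable section

namespace Pool.Agent.FW

open Pool.Agent.MuZ NumberField IsDedekindDomain

private theorem r3q_smul {K L : Type} [Field K] [Field L] [Algebra K L] (s : Gal(L/K)) (x : 𝓞 L) :
    NumberField.RingOfIntegers.mapRingHom (s : L →+* L) x = s • x := by
  apply NumberField.RingOfIntegers.ext
  rfl

private theorem r3q_norm {K L : Type} [Field K] [NumberField K] [Field L] [NumberField L]
    [Algebra K L] [IsGalois K L] (y : 𝓞 L) :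
    algebraMap (𝓞 K) (𝓞 L) (RingOfIntegers.norm K y) = ∏ s : Gal(L/K), s • y := by
  apply NumberField.RingOfIntegers.ext
  rw [RingOfIntegers.coe_algebraMap_norm, Algebra.norm_eq_prod_automorphisms]
  have h := map_prod (algebraMap (𝓞 L) L) (fun s : Gal(L/K) => s • y) Finset.univ
  exact h.symm

theorem tR3Q : S_R3Q := by
  classical
  intro K L _ _ _ _ _ _ hT q hq hq0 x hx
  have hqmax : q.IsMaximal := hq.isMaximal hq0
  obtain ⟨Q, hQmax, hQq⟩ := Ideal.exists_maximal_ideal_liesOver_of_isIntegral (S := 𝓞 L) q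
  have hQ0 : Q ≠ ⊥ := Ideal.ne_bot_of_liesOver_of_ne_bot hq0 Q
  have hQp : Q.IsPrime := hQmax.isPrime
  let fk : Field (𝓞 K ⧸ q) := Ideal.Quotient.field q
  let fκ : Field (𝓞 L ⧸ Q) := Ideal.Quotient.field Q
  have hfin : Finite (𝓞 L ⧸ Q) := Ideal.finiteQuotientOfFreeOfNeBot Q hQ0
  have hfin' : Finite (𝓞 K ⧸ q) := Ideal.finiteQuotientOfFreeOfNeBot q hq0
  obtain ⟨u, hu⟩ := FiniteField.norm_surjective (𝓞 K ⧸ q) (𝓞 L ⧸ Q) (Ideal.Quotient.mk q x)
  obtain ⟨u', rfl⟩ := Ideal.Quotient.mk_surjective u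
  let Φ := Ideal.Quotient.stabilizerHom Q q Gal(L/K)
  have hΦ : Function.Bijective Φ := by
    refine ⟨(injective_iff_map_eq_one Φ).2 fun g hg => ?_,
      Ideal.Quotient.stabilizerHom_surjective Gal(L/K) q Q⟩
    refine Subtype.ext ?_
    refine hT Q hQp hQ0 (g : Gal(L/K)) fun z => ?_
    rw [r3q_smul, ← Ideal.Quotient.eq]
    have h := DFunLike.congr_fun hg (Ideal.Quotient.mk Q z)
    exact h
  -- the product over the decomposition group
  have hprodD : ∏ g : MulAction.stabilizer Gal(L/K) Q,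
      Ideal.Quotient.mk Q ((g : Gal(L/K)) • u') = algebraMap (𝓞 K ⧸ q) (𝓞 L ⧸ Q)
        (Ideal.Quotient.mk q x) := by
    rw [← hu, Algebra.norm_eq_prod_automorphisms]
    exact Fintype.prod_bijective Φ hΦ _ _ fun g => rfl
  -- Chinese remainder theorem
  let S : Finset (Ideal (𝓞 L)) := Finset.univ.image fun g : Gal(L/K) => g • Q
  have hS : ∀ I ∈ S, Prime I := by
    intro I hI
    obtain ⟨g, -, rfl⟩ := Finset.mem_image.1 hI
    have hne : g • Q ≠ ⊥ := by
      intro h
      obtain ⟨a, haQ, ha0⟩ := Submodule.exists_mem_ne_zero_of_ne_bot hQ0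
      have h1 : g • a ∈ g • Q := Ideal.smul_mem_pointwise_smul g a Q haQ
      rw [h, Ideal.mem_bot] at h1
      exact ha0 ((smul_eq_zero_iff_eq g).1 h1)
    exact Ideal.prime_of_isPrime hne inferInstance
  obtain ⟨y, hy⟩ := IsDedekindDomain.exists_forall_sub_mem_ideal (s := S) (fun I => I)
    (fun _ => 1) hS (fun _ _ _ _ h => h) (fun I => if (I : Ideal (𝓞 L)) = Q then u' else 1)
  have hy1 : ∀ g : Gal(L/K), g • Q = Q → Ideal.Quotient.mk Q (g • y) =
      Ideal.Quotient.mk Q (g • u') := by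
    intro g hg
    have h1 : Q ∈ S := Finset.mem_image.2 ⟨g, Finset.mem_univ g, hg⟩
    have h2 : y - u' ∈ Q := by
      have h := hy Q h1
      simpa using h
    rw [Ideal.Quotient.eq, ← smul_sub]
    have h3 := Ideal.smul_mem_pointwise_smul g _ Q h2
    rwa [hg] at h3
  have hy2 : ∀ g : Gal(L/K), g • Q ≠ Q → Ideal.Quotient.mk Q (g • y) = 1 := by
    intro g hg
    have h1 : g⁻¹ • Q ∈ S := Finset.mem_image.2 ⟨g⁻¹, Finset.mem_univ _, rfl⟩
    have hne : g⁻¹ • Q ≠ Q := by
      intro h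
      exact hg (inv_smul_eq_iff.1 h).symm
    have h2 : y - 1 ∈ g⁻¹ • Q := by
      have h := hy _ h1
      simpa [hne] using h
    rw [Ideal.mem_inv_pointwise_smul_iff, smul_sub, smul_one] at h2
    rw [← map_one (Ideal.Quotient.mk Q), Ideal.Quotient.eq]
    exact h2
  have hprod : Ideal.Quotient.mk Q (∏ g : Gal(L/K), g • y) =
      Ideal.Quotient.mk Q (algebraMap (𝓞 K) (𝓞 L) x) := by
    have e1 : Ideal.Quotient.mk Q (∏ g : Gal(L/K), g • y) = ∏ g : Gal(L/K),
        (if g ∈ MulAction.stabilizer Gal(L/K) Q then Ideal.Quotient.mk Q (g • u') else 1) := by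
      rw [map_prod]
      refine Finset.prod_congr rfl fun g _ => ?_
      split_ifs with h
      · exact hy1 g h
      · exact hy2 g h
    rw [e1, ← Finset.prod_filter, Finset.prod_subtype (Finset.univ.filter
      (fun g : Gal(L/K) => g ∈ MulAction.stabilizer Gal(L/K) Q))
      (p := fun g => g ∈ MulAction.stabilizer Gal(L/K) Q) (by simp)]
    exact hprodD
  rw [← r3q_norm, Ideal.Quotient.eq, ← map_sub] at hprod
  refine ⟨y, RingOfIntegers.norm K y - x, ?_, ?_⟩
  · rw [hQq.over]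
    exact hprod
  · rw [add_sub_cancel]
    rfl

end Pool.Agent.FW
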