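import Pool.Agent.Lib.FW.SpecR3

/-!
# FW, part R3: the lifting step for norms of an unramified extension
-/

open scoped Pointwise nonZeroDivisors

noncomputable section

namespace Pool.Agent.FW

open Pool.Agent.MuZ NumberField IsDedekindDomain

private theorem r3s_prod {R ι : Type*} [CommRing R] (s : Finset ι) (f : ι → R) (b : R) :
    ∃ w : R, ∏ i ∈ s, (1 - b * f i) = 1 - b * ∑ i ∈ s, f i + b ^ 2 * w := by
  classical
  induction s using Finset.induction_on with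
  | empty => exact ⟨0, by simp⟩
  | insert a s ha ih =>
    obtain ⟨w, hw⟩ := ih
    refine ⟨w + f a * ∑ i ∈ s, f i - b * f a * w, ?_⟩
    rw [Finset.prod_insert ha, Finset.sum_insert ha, hw]
    ring

private theorem r3s_norm {K L : Type} [Field K] [NumberField K] [Field L] [NumberField L]
    [Algebra K L] [IsGalois K L] (b t : 𝓞 K) (c : 𝓞 L)
    (ht : Algebra.trace K L (c : L) = (t : K)) :
    ∃ w : 𝓞 K, Algebra.norm K ((1 - algebraMap (𝓞 K) (𝓞 L) b * c : 𝓞 L) : L) =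
      ((1 - b * t + b ^ 2 * w : 𝓞 K) : K) := by
  by_cases hb : b = 0
  · refine ⟨0, ?_⟩
    subst hb
    have h1 : (1 - algebraMap (𝓞 K) (𝓞 L) 0 * c : 𝓞 L) = 1 := by simp
    have h2 : (1 - 0 * t + 0 ^ 2 * 0 : 𝓞 K) = 1 := by ring
    rw [h1, h2]
    change Algebra.norm K (algebraMap (𝓞 L) L 1) = algebraMap (𝓞 K) K 1
    rw [map_one, map_one, map_one]
  obtain ⟨w, hw⟩ := r3s_prod (Finset.univ : Finset Gal(L/K))
    (fun s => NumberField.RingOfIntegers.mapRingHom (s : L →+* L) c) (algebraMap (𝓞 K) (𝓞 L) b)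
  have hcomm : ∀ z : 𝓞 K, algebraMap (𝓞 L) L (algebraMap (𝓞 K) (𝓞 L) z) =
      algebraMap K L (z : K) := by
    intro z
    change algebraMap (𝓞 L) L (algebraMap (𝓞 K) (𝓞 L) z) = algebraMap K L (algebraMap (𝓞 K) K z)
    rw [← IsScalarTower.algebraMap_apply (𝓞 K) (𝓞 L) L, IsScalarTower.algebraMap_apply (𝓞 K) K L]
  have hs : ∀ s : Gal(L/K), algebraMap (𝓞 L) L
      (NumberField.RingOfIntegers.mapRingHom (s : L →+* L) c) = s (c : L) := fun s => rfl
  have h1 := congrArg (algebraMap (𝓞 L) L) hw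
  simp only [map_prod, map_sub, map_add, map_mul, map_sum, map_pow, map_one, hs, hcomm] at h1
  have h2 := trace_eq_sum_automorphisms (K := K) (c : L)
  rw [ht] at h2
  rw [← h2] at h1
  have h3 := Algebra.norm_eq_prod_automorphisms (K := K)
    ((1 - algebraMap (𝓞 K) (𝓞 L) b * c : 𝓞 L) : L)
  have h4 : ∀ s : Gal(L/K), s ((1 - algebraMap (𝓞 K) (𝓞 L) b * c : 𝓞 L) : L) =
      1 - algebraMap K L (b : K) * s (c : L) := by
    intro s
    have h5 : ((1 - algebraMap (𝓞 K) (𝓞 L) b * c : 𝓞 L) : L) =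
        1 - algebraMap K L (b : K) * (c : L) := by
      change algebraMap (𝓞 L) L (1 - algebraMap (𝓞 K) (𝓞 L) b * c) = _
      rw [map_sub, map_mul, map_one, hcomm]
    rw [h5, map_sub, map_mul, map_one, AlgEquiv.commutes]
  simp only [h4] at h3
  rw [h1] at h3
  set N := Algebra.norm K ((1 - algebraMap (𝓞 K) (𝓞 L) b * c : 𝓞 L) : L) with hN
  have hb' : (b : K) ≠ 0 := by
    intro h
    apply hb
    exact NumberField.RingOfIntegers.ext h
  have h6 : algebraMap K L ((N - 1 + (b : K) * (t : K)) / (b : K) ^ 2) = algebraMap (𝓞 L) L w := by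
    have hb'' : algebraMap K L (b : K) ≠ 0 := by
      rwa [Ne, map_eq_zero]
    rw [map_div₀, map_add, map_sub, map_mul, map_pow, map_one, h3]
    field_simp
    ring
  have h7 : IsIntegral ℤ ((N - 1 + (b : K) * (t : K)) / (b : K) ^ 2) := by
    have h8 : IsIntegral ℤ (algebraMap K L ((N - 1 + (b : K) * (t : K)) / (b : K) ^ 2)) := by
      rw [h6]; exact w.2
    exact (isIntegral_algebraMap_iff (algebraMap K L).injective).1 h8
  obtain ⟨w₀, hw₀⟩ : ∃ w₀ : 𝓞 K,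
      algebraMap (𝓞 K) K w₀ = (N - 1 + (b : K) * (t : K)) / (b : K) ^ 2 := ⟨⟨_, h7⟩, rfl⟩
  refine ⟨w₀, ?_⟩
  change N = algebraMap (𝓞 K) K (1 - b * t + b ^ 2 * w₀)
  rw [map_add, map_sub, map_mul, map_mul, map_pow, map_one, hw₀]
  change N = 1 - (b : K) * (t : K) + (b : K) ^ 2 * ((N - 1 + (b : K) * (t : K)) / (b : K) ^ 2)
  field_simp
  ring

theorem tR3S (h1 : S_R3T) : S_R3S := by
  intro K L _ _ _ _ _ _ hT 𝔪 q hq hq0 hmq x hx hex
  obtain ⟨y, d, hd, hy⟩ := hex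
  have hmax : q.IsMaximal := hq.isMaximal hq0
  have hxd : x + d ∉ q := by
    intro h
    apply hx
    have := q.sub_mem h (hmq hd)
    rwa [add_sub_cancel_right] at this
  obtain ⟨n, e, he, hn⟩ := hmax.exists_inv hxd
  obtain ⟨c, d₁, hd₁, hc⟩ := h1 K L hT q hq hq0
  obtain ⟨w, hw⟩ := r3s_norm (d * n) (1 + d₁) c hc
  refine ⟨y * (1 - algebraMap (𝓞 K) (𝓞 L) (d * n) * c),
    d * (e - d₁ + e * d₁) + (d * n) * ((d * n) * ((x + d) * w)), ?_, ?_⟩
  · refine Ideal.add_mem _ (Ideal.mul_mem_mul hd ?_) ?_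
    · exact q.add_mem (q.sub_mem he hd₁) (q.mul_mem_right _ he)
    · exact Ideal.mul_mem_mul (𝔪.mul_mem_right _ hd)
        (q.mul_mem_right _ (q.mul_mem_right _ (hmq hd)))
  · have h2 : ((y * (1 - algebraMap (𝓞 K) (𝓞 L) (d * n) * c) : 𝓞 L) : L) =
        (y : L) * ((1 - algebraMap (𝓞 K) (𝓞 L) (d * n) * c : 𝓞 L) : L) := rfl
    rw [h2, map_mul, hy, hw]
    have h3 : (x + (d * (e - d₁ + e * d₁) + (d * n) * ((d * n) * ((x + d) * w))) : 𝓞 K) =
        (x + d) * (1 - (d * n) * (1 + d₁) + (d * n) ^ 2 * w) := by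
      have h4 : n * (x + d) = 1 - e := by rw [← hn]; ring
      linear_combination (d * (1 + d₁)) * h4
    rw [h3]
    rfl

end Pool.Agent.FW
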