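import Pool.Agent.Lib.FW.SpecR3

/-!
# FW, part R3: the trace of an unramified extension is onto modulo a prime
-/

open scoped Pointwise nonZeroDivisors

noncomputable section

namespace Pool.Agent.FW

open Pool.Agent.MuZ NumberField IsDedekindDomain

/-- Conjugation followed by reduction modulo `Q`. -/
private def r3tF {K L : Type} [Field K] [NumberField K] [Field L] [NumberField L] [Algebra K L]
    (Q : Ideal (𝓞 L)) (s : Gal(L/K)) : 𝓞 L →* 𝓞 L ⧸ Q :=
  ((Ideal.Quotient.mk Q).comp (NumberField.RingOfIntegers.mapRingHom (s : L →+* L)) :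
    𝓞 L →+* 𝓞 L ⧸ Q)

private theorem r3t_inj {K L : Type} [Field K] [NumberField K] [Field L] [NumberField L]
    [Algebra K L] (hT : TrivIn K L) (Q : Ideal (𝓞 L)) (hQ : Q.IsPrime) (hQ0 : Q ≠ ⊥) :
    Function.Injective (r3tF (K := K) Q) := by
  intro s t hst
  have h1 : s * t⁻¹ = 1 := by
    apply hT Q hQ hQ0
    intro x
    have h2 := DFunLike.congr_fun hst
      (NumberField.RingOfIntegers.mapRingHom ((t⁻¹ : Gal(L/K)) : L →+* L) x)
    have h3 : Ideal.Quotient.mk Q (NumberField.RingOfIntegers.mapRingHom (s : L →+* L)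
        (NumberField.RingOfIntegers.mapRingHom ((t⁻¹ : Gal(L/K)) : L →+* L) x)) =
        Ideal.Quotient.mk Q (NumberField.RingOfIntegers.mapRingHom (t : L →+* L)
        (NumberField.RingOfIntegers.mapRingHom ((t⁻¹ : Gal(L/K)) : L →+* L) x)) := h2
    rw [Ideal.Quotient.eq] at h3
    have h4 : NumberField.RingOfIntegers.mapRingHom (s : L →+* L)
        (NumberField.RingOfIntegers.mapRingHom ((t⁻¹ : Gal(L/K)) : L →+* L) x) =
        NumberField.RingOfIntegers.mapRingHom ((s * t⁻¹ : Gal(L/K)) : L →+* L) x := by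
      ext; rfl
    have h5 : NumberField.RingOfIntegers.mapRingHom (t : L →+* L)
        (NumberField.RingOfIntegers.mapRingHom ((t⁻¹ : Gal(L/K)) : L →+* L) x) = x := by
      ext
      exact AlgEquiv.apply_symm_apply t (x : L)
    rwa [h4, h5] at h3
  exact mul_inv_eq_one.1 h1

private theorem r3t_over {K L : Type} [Field K] [NumberField K] [Field L] [NumberField L]
    [Algebra K L] (q : Ideal (𝓞 K)) (hq : q.IsPrime) (hq0 : q ≠ ⊥) :
    ∃ Q : Ideal (𝓞 L), Q.IsPrime ∧ Q ≠ ⊥ ∧ Q.comap (algebraMap (𝓞 K) (𝓞 L)) = q := by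
  have hinj : Function.Injective (algebraMap (𝓞 K) (𝓞 L)) :=
    FaithfulSMul.algebraMap_injective (𝓞 K) (𝓞 L)
  obtain ⟨Q, -, hQ, hQq⟩ := Ideal.exists_ideal_over_prime_of_isIntegral (S := 𝓞 L) q ⊥ (by
    rw [← RingHom.ker_eq_comap_bot, (RingHom.injective_iff_ker_eq_bot _).1 hinj]
    exact bot_le)
  refine ⟨Q, hQ, ?_, hQq⟩
  rintro rfl
  apply hq0
  rw [← hQq, ← RingHom.ker_eq_comap_bot, (RingHom.injective_iff_ker_eq_bot _).1 hinj]

private theorem r3t_sum {K L : Type} [Field K] [NumberField K] [Field L] [NumberField L]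
    [Algebra K L] [IsGalois K L] (x : 𝓞 L) (t : 𝓞 K) (ht : Algebra.trace K L (x : L) = (t : K)) :
    algebraMap (𝓞 K) (𝓞 L) t =
      ∑ s : Gal(L/K), NumberField.RingOfIntegers.mapRingHom (s : L →+* L) x := by
  have h1 := trace_eq_sum_automorphisms (K := K) (x : L)
  rw [ht] at h1
  apply NumberField.RingOfIntegers.ext
  change ((algebraMap (𝓞 K) (𝓞 L) t : 𝓞 L) : L) = algebraMap (𝓞 L) L _
  rw [map_sum]
  have h2 : ((algebraMap (𝓞 K) (𝓞 L) t : 𝓞 L) : L) = algebraMap K L (t : K) := by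
    change algebraMap (𝓞 L) L (algebraMap (𝓞 K) (𝓞 L) t) = algebraMap K L (algebraMap (𝓞 K) K t)
    rw [← IsScalarTower.algebraMap_apply (𝓞 K) (𝓞 L) L, IsScalarTower.algebraMap_apply (𝓞 K) K L]
  rw [h2, h1]
  rfl

theorem tR3T : S_R3T := by
  intro K L _ _ _ _ _ _ hT q hq hq0
  obtain ⟨Q, hQ, hQ0, hQq⟩ := r3t_over (L := L) q hq hq0
  have := hQ
  have hli := (linearIndependent_monoidHom (𝓞 L) (𝓞 L ⧸ Q)).comp _ (r3t_inj (K := K) hT Q hQ hQ0)
  have hex : ∃ c₀ : 𝓞 L, ∑ s : Gal(L/K), r3tF (K := K) Q s c₀ ≠ 0 := by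
    by_contra hcon
    push Not at hcon
    rw [Fintype.linearIndependent_iff] at hli
    have h1 := hli (fun _ => 1) (by
      funext c
      simpa using hcon c) 1
    exact one_ne_zero h1
  obtain ⟨c₀, hc₀⟩ := hex
  let t₀ : 𝓞 K := ⟨Algebra.trace K L (c₀ : L), Algebra.isIntegral_trace c₀.2⟩
  have hs := r3t_sum (K := K) c₀ t₀ rfl
  have ht : t₀ ∉ q := by
    intro h
    apply hc₀
    rw [← hQq, Ideal.mem_comap, hs] at h
    have h2 := Ideal.Quotient.eq_zero_iff_mem.2 h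
    rw [map_sum] at h2
    exact h2
  have hmax : q.IsMaximal := hq.isMaximal hq0
  obtain ⟨n, i, hi, hn⟩ := hmax.exists_inv ht
  refine ⟨algebraMap (𝓞 K) (𝓞 L) n * c₀, -i, q.neg_mem hi, ?_⟩
  have h2 : ((algebraMap (𝓞 K) (𝓞 L) n * c₀ : 𝓞 L) : L) = (n : K) • (c₀ : L) := by
    rw [Algebra.smul_def]
    change algebraMap (𝓞 L) L (algebraMap (𝓞 K) (𝓞 L) n * c₀) =
      algebraMap K L (algebraMap (𝓞 K) K n) * algebraMap (𝓞 L) L c₀
    rw [map_mul, ← IsScalarTower.algebraMap_apply (𝓞 K) (𝓞 L) L,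
      IsScalarTower.algebraMap_apply (𝓞 K) K L]
  rw [h2, map_smul]
  have h3 : (1 + -i : 𝓞 K) = n * t₀ := by
    rw [← hn]; ring
  rw [h3]
  rfl

end Pool.Agent.FW
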