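import Pool.Agent.Lib.FW.SpecR3

open scoped Pointwise nonZeroDivisors

noncomputable section

namespace Pool.Agent.FW

open Pool.Agent.MuZ NumberField IsDedekindDomain

private theorem r3v_coe (K : Type) [Field K] [NumberField K] (v : HeightOneSpectrum (𝓞 K))
    (x : 𝓞 K) : vl K v (x : K) =
      FractionalIdeal.count K v ((Ideal.span {x} : Ideal (𝓞 K)) : FractionalIdeal (𝓞 K)⁰ K) := by
  unfold vl
  rw [FractionalIdeal.coeIdeal_span_singleton]

theorem tR3V : S_R3V := by
  intro K _ _
  refine ⟨?_, ?_, ?_, ?_⟩
  · intro v x y hx hy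
    unfold vl
    rw [← FractionalIdeal.spanSingleton_mul_spanSingleton]
    exact FractionalIdeal.count_mul K v
      (by simpa [FractionalIdeal.spanSingleton_eq_zero_iff] using hx)
      (by simpa [FractionalIdeal.spanSingleton_eq_zero_iff] using hy)
  · intro v x hx
    have hJ : (Ideal.span {x} : Ideal (𝓞 K)) ≠ 0 := by
      rw [Ne, Ideal.zero_eq_bot, Ideal.span_singleton_eq_bot]
      exact hx
    rw [r3v_coe]
    refine ⟨FractionalIdeal.count_coe_nonneg K v _, ?_⟩
    classical
    rw [FractionalIdeal.count_coe K v hJ, Nat.cast_eq_zero]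
    have h := Associates.count_ne_zero_iff_dvd hJ v.irreducible
    rw [Ideal.dvd_span_singleton] at h
    rw [← h, not_not]
  · intro x _
    exact FractionalIdeal.finite_factors (K := K) (FractionalIdeal.spanSingleton (𝓞 K)⁰ x)
  · intro v x
    exact r3v_coe K v x

end Pool.Agent.FW
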