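import Pool.Agent.Lib.FW.SpecR3

open scoped Pointwise nonZeroDivisors

noncomputable section

namespace Pool.Agent.FW

open Pool.Agent.MuZ NumberField IsDedekindDomain

private theorem r3w_coe (K : Type) [Field K] [NumberField K] (v : HeightOneSpectrum (𝓞 K))
    (x : 𝓞 K) : vl K v (x : K) =
      FractionalIdeal.count K v ((Ideal.span {x} : Ideal (𝓞 K)) : FractionalIdeal (𝓞 K)⁰ K) := by
  unfold vl
  rw [FractionalIdeal.coeIdeal_span_singleton]

private theorem r3w_zero (K : Type) [Field K] [NumberField K] (v : HeightOneSpectrum (𝓞 K))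
    (J : Ideal (𝓞 K)) (hJ : J ≠ 0) (h : ¬ v.asIdeal ∣ J) :
    FractionalIdeal.count K v (J : FractionalIdeal (𝓞 K)⁰ K) = 0 := by
  classical
  rw [FractionalIdeal.count_coe K v hJ, Nat.cast_eq_zero]
  by_contra hc
  exact h ((Associates.count_ne_zero_iff_dvd hJ v.irreducible).1 hc)

theorem tR3W : S_R3W := by
  classical
  intro K _ _ S v hv
  obtain ⟨t, ht1, ht2⟩ := Ideal.exists_mem_pow_notMem_pow_succ v.asIdeal v.ne_bot
    v.isPrime.ne_top 1
  rw [pow_one] at ht1
  obtain ⟨z, hz⟩ := IsDedekindDomain.exists_forall_sub_mem_ideal (s := S)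
    (fun w : HeightOneSpectrum (𝓞 K) => w.asIdeal) (fun _ => 2) (fun w _ => w.prime)
    (fun w _ w' _ hne h => hne (HeightOneSpectrum.ext h))
    (fun w => if (w : HeightOneSpectrum (𝓞 K)) = v then t else 1)
  have hzv : z - t ∈ v.asIdeal ^ 2 := by
    have h := hz v hv
    simpa using h
  have hzv1 : z ∈ v.asIdeal := by
    have h1 : z - t ∈ v.asIdeal := Ideal.pow_le_self (by norm_num) hzv
    have h2 := v.asIdeal.add_mem h1 ht1
    rwa [sub_add_cancel] at h2
  have hzv2 : z ∉ v.asIdeal ^ 2 := by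
    intro h
    apply ht2
    have h2 := (v.asIdeal ^ 2).sub_mem h hzv
    rw [sub_sub_cancel] at h2
    exact h2
  have hz0 : z ≠ 0 := by
    intro h
    rw [h] at hzv2
    exact hzv2 (zero_mem _)
  have hJ : (Ideal.span {z} : Ideal (𝓞 K)) ≠ 0 := by
    rw [Ne, Ideal.zero_eq_bot, Ideal.span_singleton_eq_bot]
    exact hz0
  refine ⟨z, hz0, ?_, ?_⟩
  · obtain ⟨C, hC⟩ := Ideal.dvd_span_singleton.2 hzv1
    have hC0 : C ≠ 0 := by
      rintro rfl
      rw [mul_zero] at hC
      exact hJ hC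
    rw [r3w_coe, hC, FractionalIdeal.coeIdeal_mul, FractionalIdeal.count_mul K v
      (FractionalIdeal.coeIdeal_ne_zero.2 v.ne_bot) (FractionalIdeal.coeIdeal_ne_zero.2 hC0),
      FractionalIdeal.count_self, r3w_zero K v C hC0, add_zero]
    rintro ⟨D, hD⟩
    apply hzv2
    rw [← Ideal.dvd_span_singleton, hC, hD]
    exact ⟨D, by rw [pow_two, mul_assoc]⟩
  · intro w hw hwv
    rw [r3w_coe]
    refine r3w_zero K w _ hJ ?_
    rw [Ideal.dvd_span_singleton]
    intro h
    have h1 : z - 1 ∈ w.asIdeal ^ 2 := by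
      have h := hz w hw
      simpa [hwv] using h
    have h2 : z - 1 ∈ w.asIdeal := Ideal.pow_le_self (by norm_num) h1
    have h3 := w.asIdeal.sub_mem h h2
    rw [sub_sub_cancel] at h3
    exact w.isPrime.ne_top ((Ideal.eq_top_iff_one _).2 h3)

end Pool.Agent.FW
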