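import Pool.Agent.Lib.FW.SpecR3

open scoped Pointwise nonZeroDivisors

noncomputable section

namespace Pool.Agent.FW

open Pool.Agent.MuZ NumberField IsDedekindDomain

private theorem r3x_prod {G A ι : Type} [CommGroup G] [AddCommGroup A] (F : G → A)
    (hF : ∀ a b, F (a * b) = F a + F b) (S : Finset ι) (Z : ι → G) (n : ι → ℤ) :
    F (∏ v ∈ S, Z v ^ n v) = ∑ v ∈ S, n v • F (Z v) := by
  let Φ : Additive G →+ A := AddMonoidHom.mk' (fun x => F x.toMul) (fun a b => hF a.toMul b.toMul)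
  have h1 : ∀ g : G, F g = Φ (Additive.ofMul g) := fun g => rfl
  rw [h1, ofMul_prod, map_sum]
  refine Finset.sum_congr rfl fun v _ => ?_
  rw [ofMul_zpow, map_zsmul, h1]

theorem tR3X (h1 : S_R3V) (h2 : S_R3W) (h3 : S_R3D) : S_R3X := by
  classical
  intro p _ K _ _ S b hb hr
  obtain ⟨hV1, hV2, hV3, -⟩ := h1 K
  let φ : K → ZMod p := fun x => ∑ᶠ v : HeightOneSpectrum (𝓞 K), (vl K v x : ZMod p) * b v
  have hsupp : ∀ x : K, x ≠ 0 →
      (Function.support fun v : HeightOneSpectrum (𝓞 K) => (vl K v x : ZMod p) * b v).Finite := by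
    intro x hx
    refine (hV3 x hx).subset ?_
    intro v hv
    show vl K v x ≠ 0
    intro h
    apply hv
    show (vl K v x : ZMod p) * b v = 0
    rw [h, Int.cast_zero, zero_mul]
  have hmul : ∀ x y : K, x ≠ 0 → y ≠ 0 → φ (x * y) = φ x + φ y := by
    intro x y hx hy
    show (∑ᶠ v : HeightOneSpectrum (𝓞 K), (vl K v (x * y) : ZMod p) * b v) = _
    rw [← finsum_add_distrib (hsupp x hx) (hsupp y hy)]
    refine finsum_congr fun v => ?_
    rw [hV1 v x y hx hy]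
    push_cast
    ring
  have hφr : ∀ r : 𝓞 K, r ≠ 0 → (∀ v ∈ S, r ∉ v.asIdeal) → φ (r : K) = 0 := hr
  have hcoe : ∀ r : 𝓞 K, r ≠ 0 → (r : K) ≠ 0 := by
    intro r hr0 h
    exact hr0 ((FaithfulSMul.algebraMap_eq_zero_iff (𝓞 K) K).1 h)
  have hφ0 : ∀ x : K, x ≠ 0 → (∀ v ∈ S, vl K v x = 0) → φ x = 0 := by
    intro x hx hxS
    obtain ⟨r, s, hr0, hs0, hxs, hrs⟩ := h3 K S x hx hxS
    have e := hmul x (s : K) hx (hcoe s hs0)
    rw [hxs, hφr r hr0 (fun v hv => (hrs v hv).1), hφr s hs0 (fun v hv => (hrs v hv).2),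
      add_zero] at e
    exact e.symm
  choose z hz0 hz1 hz2 using fun v : S => h2 K S v.1 v.2
  let Z : HeightOneSpectrum (𝓞 K) → Kˣ := fun v =>
    if h : v ∈ S then Units.mk0 (z ⟨v, h⟩ : K) (hcoe _ (hz0 ⟨v, h⟩)) else 1
  have hZ : ∀ v (h : v ∈ S), ((Z v : Kˣ) : K) = (z ⟨v, h⟩ : K) := by
    intro v h
    show ((if h : v ∈ S then Units.mk0 (z ⟨v, h⟩ : K) (hcoe _ (hz0 ⟨v, h⟩)) else 1 : Kˣ) : K) = _
    rw [dif_pos h]
    rfl
  let a : HeightOneSpectrum (𝓞 K) → ZMod p := fun v => if v ∈ S then - φ ((Z v : Kˣ) : K) else b v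
  refine ⟨a, ?_, fun v hv => if_neg hv⟩
  intro x hx
  let X : Kˣ := Units.mk0 x hx
  let Y : Kˣ := ∏ v ∈ S, Z v ^ (- vl K v x)
  have hYv : ∀ v ∈ S, vl K v ((Y : Kˣ) : K) = - vl K v x := by
    intro v hv
    have e := r3x_prod (G := Kˣ) (A := ℤ) (fun u : Kˣ => vl K v (u : K))
      (fun a b => by
        show vl K v ((a * b : Kˣ) : K) = _
        rw [Units.val_mul]
        exact hV1 v _ _ a.ne_zero b.ne_zero) S Z (fun w => - vl K w x)
    have e' : vl K v ((Y : Kˣ) : K) = ∑ w ∈ S, (- vl K w x) • vl K v ((Z w : Kˣ) : K) := e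
    rw [e', Finset.sum_eq_single_of_mem v hv]
    · rw [hZ v hv, hz1 ⟨v, hv⟩, smul_eq_mul, mul_one]
    · intro w hw hwv
      rw [hZ w hw, hz2 ⟨w, hw⟩ v hv (Ne.symm hwv), smul_zero]
  have hYφ : φ ((Y : Kˣ) : K) = ∑ w ∈ S, (- vl K w x) • φ ((Z w : Kˣ) : K) :=
    r3x_prod (G := Kˣ) (A := ZMod p) (fun u : Kˣ => φ (u : K))
      (fun a b => by
        show φ ((a * b : Kˣ) : K) = _
        rw [Units.val_mul]
        exact hmul _ _ a.ne_zero b.ne_zero) S Z (fun w => - vl K w x)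
  have hxY : φ (x * ((Y : Kˣ) : K)) = 0 := by
    apply hφ0 _ (mul_ne_zero hx Y.ne_zero)
    intro v hv
    rw [hV1 v _ _ hx Y.ne_zero, hYv v hv, add_neg_cancel]
  rw [hmul _ _ hx Y.ne_zero, hYφ] at hxY
  have key : ∀ v, (vl K v x : ZMod p) * a v = (vl K v x : ZMod p) * b v +
      (if v ∈ S then (- vl K v x) • φ ((Z v : Kˣ) : K) else 0) := by
    intro v
    show (vl K v x : ZMod p) * (if v ∈ S then - φ ((Z v : Kˣ) : K) else b v) = _
    by_cases hv : v ∈ S
    · rw [if_pos hv, if_pos hv, hb v hv, mul_zero, zero_add, zsmul_eq_mul]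
      push_cast
      ring
    · rw [if_neg hv, if_neg hv, add_zero]
  rw [finsum_congr key, finsum_add_distrib (hsupp x hx)]
  · refine Eq.trans ?_ hxY
    congr 1
    rw [finsum_eq_sum_of_support_subset (s := S)]
    · refine Finset.sum_congr rfl fun v hv => ?_
      rw [if_pos hv]
    · intro v hv
      by_contra h
      apply hv
      exact if_neg h
  · refine S.finite_toSet.subset ?_
    intro v hv
    by_contra h
    apply hv
    exact if_neg h

end Pool.Agent.FW
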