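import Pool.Agent.Lib.FW.G.Ine
import Pool.Agent.Lib.FW.R.Lie
import Pool.Agent.Lib.FW.R.FrU
import Pool.Agent.Lib.FW.Fr.FrE
import Pool.Agent.Lib.FW.Fr.FrM
import Pool.Agent.Lib.FW.Fr.FrG
import Pool.Agent.Lib.FW.Fr.FrI
import Pool.Agent.Lib.FW.R3.R3V
import Pool.Agent.Lib.FW.R3.R3W
import Pool.Agent.Lib.FW.R3.R3D
import Pool.Agent.Lib.FW.R3.R3X
import Pool.Agent.Lib.FW.R3.R3T
import Pool.Agent.Lib.FW.R3.R3Q
import Pool.Agent.Lib.FW.R3.R3S
import Pool.Agent.Lib.FW.R3.R3N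
import Pool.Agent.Lib.FW.R3.R3M
import Pool.Agent.Lib.FW.R3.R3A
import Pool.Agent.Lib.FW.R3.R3F

/-!
# FW, part R3: cyclotomic unramified characters, assembled
-/

noncomputable section

namespace Pool.Agent.FW

/-- **Part R3.** Reciprocity outside `m` for an unramified character whose field is contained in
`K(μ_m)`. -/
theorem r3OK : S_R3 :=
  tR3F tIne tFrG tLie tFrE tFrU
    (tR3A (tFrI tLie tFrE tFrM) tR3V (tR3N tR3Q (tR3S tR3T)) tR3M)
    (tR3X tR3V tR3W (tR3D tR3V))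

end Pool.Agent.FW
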