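import Pool.Agent.Lib.FW.SpecR3

/-!
# FW, part R3: the norm of an unramified extension is onto modulo `m`
-/

open scoped Pointwise nonZeroDivisors

noncomputable section

namespace Pool.Agent.FW

open Pool.Agent.MuZ NumberField IsDedekindDomain

private theorem r3n_prod {R ι : Type*} [CommRing R] (s : Finset ι) (f g : ι → R) (a : R)
    (h : ∀ i, a ∣ f i - g i) : a ∣ ∏ i ∈ s, f i - ∏ i ∈ s, g i := by
  classical
  induction s using Finset.induction_on with
  | empty => simp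
  | insert i s hi ih =>
    rw [Finset.prod_insert hi, Finset.prod_insert hi]
    obtain ⟨u, hu⟩ := h i
    obtain ⟨v, hv⟩ := ih
    exact ⟨f i * v + u * ∏ j ∈ s, g j, by linear_combination f i * hv + (∏ j ∈ s, g j) * hu⟩

private theorem r3n_norm {K L : Type} [Field K] [NumberField K] [Field L] [NumberField L]
    [Algebra K L] [IsGalois K L] (u v z : 𝓞 L) (a U V : 𝓞 K)
    (hU : Algebra.norm K (u : L) = (U : K)) (hV : Algebra.norm K (v : L) = (V : K))
    (h : u - v = algebraMap (𝓞 K) (𝓞 L) a * z) : a ∣ U - V := by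
  have hcomm : ∀ z : 𝓞 K, algebraMap (𝓞 L) L (algebraMap (𝓞 K) (𝓞 L) z) =
      algebraMap K L (z : K) := by
    intro z
    change algebraMap (𝓞 L) L (algebraMap (𝓞 K) (𝓞 L) z) = algebraMap K L (algebraMap (𝓞 K) K z)
    rw [← IsScalarTower.algebraMap_apply (𝓞 K) (𝓞 L) L, IsScalarTower.algebraMap_apply (𝓞 K) K L]
  have hs : ∀ (s : Gal(L/K)) (x : 𝓞 L), algebraMap (𝓞 L) L
      (NumberField.RingOfIntegers.mapRingHom (s : L →+* L) x) = s (x : L) := fun s x => rfl
  have hsa : ∀ s : Gal(L/K), NumberField.RingOfIntegers.mapRingHom (s : L →+* L)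
      (algebraMap (𝓞 K) (𝓞 L) a) = algebraMap (𝓞 K) (𝓞 L) a := by
    intro s
    apply NumberField.RingOfIntegers.ext
    change s (algebraMap (𝓞 L) L (algebraMap (𝓞 K) (𝓞 L) a)) =
      algebraMap (𝓞 L) L (algebraMap (𝓞 K) (𝓞 L) a)
    rw [hcomm, AlgEquiv.commutes]
  obtain ⟨w, hw⟩ := r3n_prod (Finset.univ : Finset Gal(L/K))
    (fun s => NumberField.RingOfIntegers.mapRingHom (s : L →+* L) u)
    (fun s => NumberField.RingOfIntegers.mapRingHom (s : L →+* L) v)
    (algebraMap (𝓞 K) (𝓞 L) a) (by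
      intro s
      refine ⟨NumberField.RingOfIntegers.mapRingHom (s : L →+* L) z, ?_⟩
      rw [← map_sub, h, map_mul, hsa])
  have h1 := congrArg (algebraMap (𝓞 L) L) hw
  simp only [map_prod, map_sub, map_mul, hs, hcomm] at h1
  have h2 := Algebra.norm_eq_prod_automorphisms (K := K) (u : L)
  have h3 := Algebra.norm_eq_prod_automorphisms (K := K) (v : L)
  rw [← h2, ← h3, hU, hV, ← map_sub] at h1
  by_cases ha : a = 0
  · subst ha
    have h4 : algebraMap K L ((U : K) - (V : K)) = 0 := by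
      rw [h1]
      change algebraMap K L (algebraMap (𝓞 K) K 0) * _ = 0
      rw [map_zero, map_zero, zero_mul]
    rw [map_eq_zero, sub_eq_zero] at h4
    have h5 : U = V := NumberField.RingOfIntegers.ext h4
    rw [h5, sub_self]
  have ha' : (a : K) ≠ 0 := fun h => ha (NumberField.RingOfIntegers.ext h)
  have ha'' : algebraMap K L (a : K) ≠ 0 := by rwa [Ne, map_eq_zero]
  have h6 : algebraMap K L (((U : K) - (V : K)) / (a : K)) = algebraMap (𝓞 L) L w := by
    rw [map_div₀, h1]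
    field_simp
  have h7 : IsIntegral ℤ (((U : K) - (V : K)) / (a : K)) := by
    have h8 : IsIntegral ℤ (algebraMap K L (((U : K) - (V : K)) / (a : K))) := by
      rw [h6]; exact w.2
    exact (isIntegral_algebraMap_iff (algebraMap K L).injective).1 h8
  obtain ⟨w₀, hw₀⟩ : ∃ w₀ : 𝓞 K,
      algebraMap (𝓞 K) K w₀ = ((U : K) - (V : K)) / (a : K) := ⟨⟨_, h7⟩, rfl⟩
  refine ⟨w₀, ?_⟩
  apply NumberField.RingOfIntegers.ext
  change algebraMap (𝓞 K) K (U - V) = algebraMap (𝓞 K) K (a * w₀)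
  rw [map_mul, hw₀, map_sub]
  change (U : K) - (V : K) = (a : K) * (((U : K) - (V : K)) / (a : K))
  field_simp

private theorem r3n_main {K L : Type} [Field K] [NumberField K] [Field L] [NumberField L]
    [Algebra K L] [IsGalois K L] (hT : TrivIn K L) (h1 : S_R3Q) (h2 : S_R3S) (x : 𝓞 K)
    (𝔪 : Ideal (𝓞 K)) : 𝔪 ≠ 0 → (∀ q : Ideal (𝓞 K), q.IsPrime → q ≠ ⊥ → 𝔪 ≤ q → x ∉ q) →
    ∃ y : 𝓞 L, ∃ d ∈ 𝔪, Algebra.norm K (y : L) = ((x + d : 𝓞 K) : K) := by
  induction 𝔪 using UniqueFactorizationMonoid.induction_on_prime with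
  | h₁ => intro h; exact absurd rfl h
  | h₂ 𝔪 hu =>
    intro _ _
    rw [Ideal.isUnit_iff] at hu
    refine ⟨1, 1 - x, by rw [hu]; exact Submodule.mem_top, ?_⟩
    rw [add_sub_cancel]
    change Algebra.norm K (algebraMap (𝓞 L) L 1) = algebraMap (𝓞 K) K 1
    rw [map_one, map_one, map_one]
  | h₃ a q ha hqp ih =>
    intro _ hx
    have hq : q.IsPrime := Ideal.isPrime_of_prime hqp
    have hq0 : q ≠ ⊥ := hqp.ne_zero
    have hmax : q.IsMaximal := hq.isMaximal hq0
    have hxq : x ∉ q := hx q hq hq0 (Ideal.mul_le_inf.trans inf_le_left)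
    obtain ⟨y₁, d₁, hd₁, hy₁⟩ := ih ha fun q' hq' hq0' hle =>
      hx q' hq' hq0' ((Ideal.mul_le_inf.trans inf_le_right).trans hle)
    by_cases hle : a ≤ q
    · obtain ⟨y, d, hd, hy⟩ := h2 K L hT a q hq hq0 hle x hxq ⟨y₁, d₁, hd₁, hy₁⟩
      exact ⟨y, d, by rwa [mul_comm], hy⟩
    obtain ⟨y₂, d₂, hd₂, hy₂⟩ := h1 K L hT q hq hq0 x hxq
    have hsup : a ⊔ q = ⊤ := by
      by_contra hne
      have h := hmax.eq_of_le hne (le_sup_right : q ≤ a ⊔ q)
      exact hle (h ▸ le_sup_left)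
    obtain ⟨α, hα, β, hβ, hαβ⟩ := Submodule.mem_sup.1 ((Ideal.eq_top_iff_one _).1 hsup)
    let y : 𝓞 L := algebraMap (𝓞 K) (𝓞 L) α * y₂ + algebraMap (𝓞 K) (𝓞 L) β * y₁
    have hone : algebraMap (𝓞 K) (𝓞 L) α + algebraMap (𝓞 K) (𝓞 L) β = 1 := by
      rw [← map_add, hαβ, map_one]
    let N : 𝓞 K := ⟨Algebra.norm K (y : L), Algebra.isIntegral_norm K y.2⟩
    have e1 := r3n_norm y y₁ (y₂ - y₁) α N (x + d₁) rfl hy₁ (by
      simp only [y]; linear_combination y₁ * hone)
    have e2 := r3n_norm y y₂ (y₁ - y₂) β N (x + d₂) rfl hy₂ (by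
      simp only [y]; linear_combination y₂ * hone)
    have m1 : N - x ∈ a := by
      have h := a.add_mem (a.mem_of_dvd e1 hα) hd₁
      have h' : N - (x + d₁) + d₁ = N - x := by ring
      rwa [h'] at h
    have m2 : N - x ∈ q := by
      have h := q.add_mem (q.mem_of_dvd e2 hβ) hd₂
      have h' : N - (x + d₂) + d₂ = N - x := by ring
      rwa [h'] at h
    refine ⟨y, N - x, ?_, ?_⟩
    · have h : N - x = (N - x) * α + β * (N - x) := by
        linear_combination (-(N - x)) * hαβ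
      rw [h]
      exact Ideal.add_mem _ (Ideal.mul_mem_mul m2 hα) (Ideal.mul_mem_mul hβ m1)
    · rw [add_sub_cancel]
      rfl

theorem tR3N (h1 : S_R3Q) (h2 : S_R3S) : S_R3N := by
  intro K L _ _ _ _ _ _ hT m hm x hx
  have hm0 : (m : 𝓞 K) ≠ 0 := by exact_mod_cast hm.ne'
  by_cases hm1 : m = 1
  · subst hm1
    refine ⟨1, 1 - x, one_ne_zero, ?_⟩
    rw [Nat.cast_one, one_mul, add_sub_cancel]
    change Algebra.norm K (algebraMap (𝓞 L) L 1) = algebraMap (𝓞 K) K 1
    rw [map_one, map_one, map_one]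
  have hx' : ∀ q : Ideal (𝓞 K), q.IsPrime → q ≠ ⊥ → Ideal.span {(m : 𝓞 K)} ≤ q → x ∉ q := by
    intro q hq hq0 hle
    exact hx ⟨q, hq, hq0⟩ (hle (Ideal.mem_span_singleton_self _))
  obtain ⟨y, d, hd, hy⟩ := r3n_main hT h1 h2 x (Ideal.span {(m : 𝓞 K)}) (by
    rw [Ne, Ideal.zero_eq_bot, Ideal.span_singleton_eq_bot]; exact hm0) hx'
  obtain ⟨z, hz⟩ := Ideal.mem_span_singleton'.1 hd
  refine ⟨y, z, ?_, ?_⟩
  · rintro rfl
    have hnu : ¬ IsUnit (m : 𝓞 K) := by
      intro hu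
      have h3 : IsUnit (algebraMap ℤ (𝓞 K) (m : ℤ)) := by simpa using hu
      have h4 : IsUnit (m : ℤ) := by
        have := (Algebra.IsIntegral.isIntegral (R := ℤ) (A := 𝓞 K))
        have hloc : IsLocalHom (algebraMap ℤ (𝓞 K)) :=
          RingHom.IsIntegral.isLocalHom (fun x => this x) (FaithfulSMul.algebraMap_injective ℤ (𝓞 K))
        exact hloc.map_nonunit _ h3
      rw [Int.isUnit_iff] at h4
      omega
    have hne : Ideal.span {(m : 𝓞 K)} ≠ ⊤ := by
      rwa [Ne, Ideal.span_singleton_eq_top]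
    obtain ⟨q, hq, hle⟩ := Ideal.exists_le_maximal _ hne
    have hq0 : q ≠ ⊥ := by
      rintro rfl
      have := hle (Ideal.mem_span_singleton_self _)
      exact hm0 ((Submodule.mem_bot _).1 this)
    apply hx' q hq.isPrime hq0 hle
    have h5 : x + d = 0 := by
      apply NumberField.RingOfIntegers.ext
      rw [← hy]
      change Algebra.norm K (algebraMap (𝓞 L) L 0) = algebraMap (𝓞 K) K 0
      rw [map_zero (algebraMap (𝓞 L) L), map_zero (algebraMap (𝓞 K) K), Algebra.norm_zero]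
    have h6 : x = -d := by linear_combination h5
    rw [h6]
    exact q.neg_mem (hle hd)
  · rw [hy, ← hz, mul_comm]

end Pool.Agent.FW
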